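import Mathlib
import Pool.Agent.Helper397.LamDefs
import Pool.Agent.Helper397.E10

set_option autoImplicit false

namespace Pool.Agent.Results.MP_af714c_lc.GCHClassification

open Cardinal Pool.Agent.Helper397.LamDefs

universe u

/-- Under GCH, if there is no inaccessible cardinal, then `λ² → (λ², 3)²` holds for an infinite
cardinal `λ` if and only if the cofinality of `λ` is `ω`. -/
theorem result
    (gch : ∀ μ : Cardinal.{u}, ℵ₀ ≤ μ → (2 : Cardinal.{u}) ^ μ = Order.succ μ)
    (hno : ∀ κ : Cardinal.{u}, ¬ κ.IsInaccessible)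
    (l : Cardinal.{u}) (hl : ℵ₀ ≤ l) :
    ArrowSelfThree (l.ord * l.ord) ↔ l.ord.cof = ℵ₀ :=
  Pool.Agent.Helper397.E10.classification gch hno l hl

end Pool.Agent.Results.MP_af714c_lc.GCHClassification
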