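import Mathlib
import Pool.Agent.Helper397.LamDefs
import Pool.Agent.Helper397.E14

set_option autoImplicit false

namespace Pool.Agent.Results.MP_af714c_lc.ZFCResults

open Cardinal Pool.Agent.Helper397.LamDefs

universe u

/-- ZFC results on `λ² → (λ², 3)²`, for every infinite cardinal `λ`:
(1) the relation for `λ` implies the relation for the cofinality of `λ`;
(2) it holds if `λ` is a strong limit whose cofinality is `ω` or weakly compact;
(3) it fails if the cofinality of `λ` is `μ⁺` with `2 ^ μ = μ⁺`;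
(4) it fails if the cofinality of `λ` is uncountable and carries a diamond on a nonreflecting
set. -/
theorem result (l : Cardinal.{u}) (hl : ℵ₀ ≤ l) :
    (ArrowSelfThree (l.ord * l.ord) → ArrowSelfThree (l.ord.cof.ord * l.ord.cof.ord)) ∧
    ((∀ x, x < l → (2 : Cardinal.{u}) ^ x < l) → (l.ord.cof = ℵ₀ ∨ WeaklyCompact l.ord.cof) →
      ArrowSelfThree (l.ord * l.ord)) ∧
    (∀ μ : Cardinal.{u}, ℵ₀ ≤ μ → (2 : Cardinal.{u}) ^ μ = Order.succ μ →
      l.ord.cof = Order.succ μ → ¬ ArrowSelfThree (l.ord * l.ord)) ∧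
    (ℵ₀ < l.ord.cof → NonreflectingDiamond l.ord.cof → ¬ ArrowSelfThree (l.ord * l.ord)) := by
  refine ⟨Pool.Agent.Helper397.E14.arrow_cof hl, fun hsl h => ?_, fun μ hμ h2 hcof => ?_,
    Pool.Agent.Helper397.E13.not_arrow_of_diamond hl⟩
  · rcases h with h | h
    · refine Pool.Agent.Helper397.E9.arrow_of_cof hl hsl ?_
      rw [h]
      exact Pool.Agent.Helper397.E9.ram4_omega
    · exact Pool.Agent.Helper397.E9.arrow_of_cof hl hsl (Pool.Agent.Helper397.E11.ram4_wc h)
  · refine Pool.Agent.Helper397.E3.transfer hl ?_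
    rw [hcof]
    exact Pool.Agent.Helper397.E2.badGraph_succ hμ h2

end Pool.Agent.Results.MP_af714c_lc.ZFCResults
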